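import Pool.Agent.Helper17.SV.Stmts

/-! Module CNTZO (MP_c38931_co): from the conditions for all primes in `(w, z]` to the conditions
for the primes with odd exponent. -/

set_option autoImplicit false

open Finset

namespace Pool.Agent.Helper17.SV

open Pool.Agent.Helper17.SO

theorem cntzo_arith (lam W w z k : ℕ) (τ : ℤ) (hWw : W ≤ w) (h : ArithO lam W τ k)
    (hn : ¬ ∃ l : ℕ, l.Prime ∧ w < l ∧ l ≤ z ∧ ((l : ℤ) ^ 2 ∣ (k : ℤ) ^ 2 - k + lam)) :
    ArithZ lam w z τ k := by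
  obtain ⟨v, n, hk, hn1, hv, hodd, hτ, h1, h2⟩ := h
  refine ⟨v, n, hk, hn1, hv, hodd, hτ, ?_, h2⟩
  intro q p hq hp hwq hqz hqv hpq hpn f
  refine h1 q p hq hp (by omega) ?_ hpq hpn f
  have hv0 : v ≠ 0 := by
    rintro rfl
    exact absurd hodd (by decide)
  have h3 : 1 ≤ v.factorization q := hq.factorization_pos_of_dvd hv0 hqv
  have h4 : ¬ 2 ≤ v.factorization q := by
    intro h5
    have h6 : q ^ 2 ∣ v := (hq.pow_dvd_iff_le_factorization hv0).2 h5
    refine hn ⟨q, hq, hwq, hqz, ?_⟩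
    have h7 : (k : ℤ) ^ 2 - k + lam = lam * v := by
      have h8 : ((lam * v + k : ℕ) : ℤ) = ((k * k + lam : ℕ) : ℤ) := by rw [hv]
      push_cast at h8
      linarith
    rw [h7]
    have h9 : ((q : ℤ) ^ 2) ∣ (v : ℤ) := by exact_mod_cast h6
    exact Dvd.dvd.mul_left h9 _
  have h5 : v.factorization q = 1 := by omega
  rw [h5]
  exact odd_one

theorem st_CNTZO (hZ : ST_CNTZZ) (hQ : ST_SQV) : ST_CNTZO := by
  classical
  intro lam η hlam hη
  obtain ⟨A, C, hA, hC, h⟩ := hZ lam η hlam hη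
  refine ⟨max A 2, C, le_max_of_le_left hA, hC, ?_⟩
  intro x W w z hWw hw hwz hzx S hS
  have hz1 : 1 ≤ z := by omega
  have hzA : z ^ A ≤ x := (Nat.pow_le_pow_right hz1 (le_max_left _ _)).trans hzx
  have hz2 : z ^ 2 ≤ x := (Nat.pow_le_pow_right hz1 (le_max_right _ _)).trans hzx
  set S1 := S.filter (fun k : ℕ => ∃ l : ℕ, l.Prime ∧ w < l ∧ l ≤ z ∧
    ((l : ℤ) ^ 2 ∣ (k : ℤ) ^ 2 - k + lam)) with hS1
  set S2 := S.filter (fun k : ℕ => ¬ ∃ l : ℕ, l.Prime ∧ w < l ∧ l ≤ z ∧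
    ((l : ℤ) ^ 2 ∣ (k : ℤ) ^ 2 - k + lam)) with hS2
  have hcard : S.card = S1.card + S2.card := by
    rw [hS1, hS2, Finset.card_filter_add_card_filter_not]
  have h1 := hQ lam w z x (by omega) (by omega) S1 (fun k hk => by
    rw [hS1, Finset.mem_filter] at hk
    exact ⟨(hS k hk.1).1, hk.2⟩)
  have h2 := h x w z hw hwz hzA S2 (fun k hk => by
    rw [hS2, Finset.mem_filter] at hk
    obtain ⟨hkx, τ, hτ, hA⟩ := hS k hk.1
    exact ⟨hkx, τ, hτ, cntzo_arith lam W w z k τ hWw hA hk.2⟩)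
  have hw0 : (0 : ℝ) < w := by exact_mod_cast (by omega : 0 < w)
  have h3 : (z : ℝ) ≤ x / w := by
    rw [le_div_iff₀ hw0]
    have h4 : z * w ≤ x := (Nat.mul_le_mul_left z hwz).trans (by rw [← pow_two]; exact hz2)
    exact_mod_cast h4
  have h5 : 2 * (x : ℝ) / w = 2 * (x / w) := by ring
  rw [hcard]
  push_cast
  rw [h5] at h1
  linarith

end Pool.Agent.Helper17.SV
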