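import Pool.Agent.Helper17.SV.Stmts

/-! Module DESO (MP_c38931_co): a design of the class gives the arithmetic conditions. -/

set_option autoImplicit false

open Finset

namespace Pool.Agent.Helper17.SV

open Pool.Agent.Helper17.SO

theorem st_DESO (hI : Pool.Agent.Helper17.SO.ST_INC) (hS : Pool.Agent.Helper17.SO.ST_SCH)
    (hBR : Pool.Agent.Helper17.SO.ST_BRC) (hE : ST_EVW) (hC : ST_C1) : ST_DESO := by
  intro lam W v k B hlam hk hkv hW hD hcls
  obtain ⟨hlk, heq, hAA, hrow, hcol⟩ := hI v k lam B hlam hk hkv hD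
  obtain ⟨n, hn⟩ : ∃ n, k = n + lam := ⟨k - lam, by omega⟩
  have hn1 : 1 ≤ n := by omega
  have hkk : k * k = n + lam * v := by omega
  have hAA' : inc B * (inc B).transpose = (n : ℤ) • (1 : Matrix (Fin v) (Fin v) ℤ) +
      (lam : ℤ) • Matrix.of (fun _ _ => (1 : ℤ)) := by
    rw [hAA]
    have : ((k : ℤ) - lam) = (n : ℤ) := by rw [hn]; push_cast; ring
    rw [this]
  rcases Nat.even_or_odd v with hv | hv
  · left
    obtain ⟨r, hr⟩ := hS v k n lam (inc B) hn1 hk hkk hv (by omega) hAA'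
    exact ⟨r, by rw [hn, hr]⟩
  · right
    refine ⟨(-1) ^ ((v - 1) / 2), neg_one_pow_eq_or ℤ _, v, n, hn, hn1, heq, hv, rfl, ?_, ?_⟩
    · intro q p hq hp hWq hqv hpq hodd f
      have hq2 : q ≠ 2 := by omega
      obtain ⟨g, r, hg1, hg2, hg3⟩ : ∃ (g : Equiv.Perm (Fin v)) (r : ℕ), g ^ q ^ r = 1 ∧
          Even (nfix g) ∧ Aut B g := by
        rcases hcls with ⟨G, u, hG1, hG2, hG3, hG4⟩ | h
        · obtain ⟨g, hg, ⟨r, hr⟩, hg'⟩ := hE v u W q G hv hG1 hG4 hG3 hq hWq hqv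
          exact ⟨g, r, hr, hg', hG2 g hg⟩
        · exact h q hq hWq hqv
      exact hC v k lam n B hlam hk hkv hD hv hn q r g hq hq2 hg1 hg2 hg3 p hp hpq hodd f
    · intro p hp hp2 hpl hfac
      exact hBR v k n lam p (inc B) hn1 hk hv hkk hAA' hrow hcol hp hp2 hpl hfac

end Pool.Agent.Helper17.SV
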