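import Pool.Agent.Helper17.SV.Stmts
import Pool.Agent.Helper17.SO.Main

/-! MAINO (MP_c38931_co): the theorem from the modules DESO and CNTO. -/

set_option autoImplicit false

open Finset

namespace Pool.Agent.Helper17.SV

open Pool.Agent.Helper17.SO

theorem st_MAINO (hD : ST_DESO) (hC : ST_CNTO) : ST_MAINO := by
  classical
  intro lam ε hlam hε
  obtain ⟨C1, hC1, h1⟩ := hC lam ε hlam hε
  obtain ⟨C2, hC2, h2⟩ := main_sqrt_le (1 + kap lam - ε)
  refine ⟨C1 + C2, fun x W hW hx S hS => ?_⟩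
  set S1 := S.filter (fun k => ∃ r : ℕ, k = r * r + lam) with hS1
  set S2 := S.filter (fun k => ¬ ∃ r : ℕ, k = r * r + lam) with hS2
  have hcard : S.card = S1.card + S2.card := (Finset.card_filter_add_card_filter_not _).symm
  have h3 : (S1.card : ℝ) ≤ (Nat.sqrt x : ℝ) + 1 := by
    have : S1.card ≤ Nat.sqrt x + 1 := main_squares lam x S1 (fun k hk => by
      rw [hS1, Finset.mem_filter] at hk
      exact ⟨(hS k hk.1).2.1, hk.2⟩)
    exact_mod_cast this
  have h4 := h1 x W hW hx S2 (fun k hk => by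
    rw [hS2, Finset.mem_filter] at hk
    obtain ⟨hk1, hk2, v, B, hk3, hk4, hk5⟩ := hS k hk.1
    refine ⟨hk2, ?_⟩
    rcases hD lam W v k B hlam hk1 hk3 hW hk4 hk5 with h | h
    · exact absurd h hk.2
    · exact h)
  have h5 := h2 x W hW hx
  rw [hcard]
  push_cast
  calc (S1.card : ℝ) + S2.card
      ≤ C2 * x * (Real.log W / Real.log x) ^ (1 + kap lam - ε) +
        C1 * x * (Real.log W / Real.log x) ^ (1 + kap lam - ε) := by linarith
    _ = (C1 + C2) * x * (Real.log W / Real.log x) ^ (1 + kap lam - ε) := by ring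

end Pool.Agent.Helper17.SV
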