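import Pool.Agent.Helper17.SV.Stmts

set_option autoImplicit false

/-! # Module OMEZ: the forbidden classes -/

open Finset

namespace Pool.Agent.Helper17.SV

open Pool.Agent.Helper17.SO

/-- the roots -/
noncomputable def omez_R (lam l : ℕ) (h : l.Prime) : Finset (ZMod l) :=
  haveI : Fact l.Prime := ⟨h⟩
  Finset.univ.filter fun r : ZMod l => r ^ 2 - r + lam = 0

theorem omez_mem {lam l : ℕ} (h : l.Prime) (r : ZMod l) :
    r ∈ omez_R lam l h ↔ r ^ 2 - r + lam = 0 := by
  unfold omez_R
  simp

/-- the product with `m` is not a square -/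
def omez_bad (m l : ℕ) (r : ZMod l) : Prop := ¬ IsSquare (r * (m : ZMod l))

open Classical in
/-- the first part of the forbidden classes -/
noncomputable def omez_R1 (lam m y l : ℕ) (h : l.Prime) : Finset (ZMod l) :=
  if l ≤ y then omez_R lam l h
  else if cond2 lam l then (omez_R lam l h).filter (omez_bad m l) else ∅

open Classical in
/-- the second part -/
noncomputable def omez_R3 (lam I : ℕ) (T : Finset ℕ) (τ : ℤ) (l : ℕ) : Finset (ZMod l) :=
  if cond3 lam I T τ l then {(lam : ZMod l)} else ∅

open Classical in
/-- the forbidden classes -/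
noncomputable def omez_O (lam m I : ℕ) (T : Finset ℕ) (τ : ℤ) (z l : ℕ) : Finset (ZMod l) :=
  if h : l.Prime then omez_R1 lam m (yT I T z) l h ∪ omez_R3 lam I T τ l else ∅

theorem omez_PP {u w l : ℕ} (h : l ∈ PP u w) : u < l ∧ l ≤ w ∧ l.Prime := by
  unfold PP at h
  rw [mem_filter, mem_Ioc] at h
  exact ⟨h.1.1, h.1.2, h.2⟩

theorem omez_FD {lam l k : ℕ} (h : (k : ZMod l) ^ 2 - k + lam = 0) : FD lam l k := by
  unfold FD
  rw [← ZMod.intCast_zmod_eq_zero_iff_dvd]
  push_cast
  exact h

/-- `l` divides `v` -/
theorem omez_v {lam l k v : ℕ} (hl : l.Prime) (hlam : 1 ≤ lam) (h : lam < l)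
    (hv : lam * v + k = k * k + lam) (hF : FD lam l k) : l ∣ v := by
  unfold FD at hF
  have e : (k : ℤ) ^ 2 - k + lam = lam * v := by
    have : ((lam * v + k : ℕ) : ℤ) = ((k * k + lam : ℕ) : ℤ) := by rw [hv]
    push_cast at this
    linarith
  rw [e] at hF
  have h1 : l ∣ lam * v := by exact_mod_cast hF
  rcases hl.dvd_mul.1 h1 with h2 | h2
  · have := Nat.le_of_dvd (by omega) h2
    omega
  · exact h2

theorem omez_fac {m s p : ℕ} (hm : 1 ≤ m) (hs : Squarefree s) (hp : p.Prime) (h : p ∣ s) :
    (m ^ 2 * s).factorization p = 2 * m.factorization p + 1 := by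
  have hs0 : s ≠ 0 := hs.ne_zero
  rw [Nat.factorization_mul (by positivity) hs0, Nat.factorization_pow]
  simp only [Finsupp.coe_add, Finsupp.coe_smul, Pi.add_apply, Pi.smul_apply, smul_eq_mul]
  have h1 : s.factorization p ≤ 1 := hs.natFactorization_le_one p
  have h2 : 0 < s.factorization p := hp.factorization_pos_of_dvd hs0 h
  omega

theorem st_OMEZ (hROOT : ST_ROOT) (hQRA : ST_QRA) (hQRB : ST_QRB) : ST_OMEZ := by
  classical
  intro lam w z m I T τ hlam hw hm hmw hT hTI hτ
  refine ⟨omez_O lam m I T τ z, ?_, ?_⟩
  · intro l hl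
    rw [mem_sdiff] at hl
    obtain ⟨h1, h2, h3⟩ := omez_PP hl.1
    have hfact : Fact l.Prime := ⟨h3⟩
    obtain ⟨r1, r2, r3⟩ := hROOT lam l hlam (by omega) (omez_R lam l h3) (omez_mem h3)
    have hJ : jacobiSym (1 - 4 * (lam : ℤ)) l ≤ 1 := by
      rcases jacobiSym.trichotomy (1 - 4 * (lam : ℤ)) l with h | h | h <;> omega
    have hR2 : (omez_R lam l h3).card ≤ 2 := by
      have : ((omez_R lam l h3).card : ℤ) ≤ 2 := by omega
      exact_mod_cast this
    have hsub : omez_R1 lam m (yT I T z) l h3 ⊆ omez_R lam l h3 := by
      unfold omez_R1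
      split_ifs
      · exact Finset.Subset.refl _
      · exact filter_subset _ _
      · exact empty_subset _
    have hdisj : Disjoint (omez_R1 lam m (yT I T z) l h3) (omez_R3 lam I T τ l) := by
      unfold omez_R3
      split_ifs
      · rw [disjoint_singleton_right]
        exact fun h => r2 (hsub h)
      · exact disjoint_empty_right _
    have hcard : (omez_O lam m I T τ z l).card =
        (omez_R1 lam m (yT I T z) l h3).card + (omez_R3 lam I T τ l).card := by
      unfold omez_O
      rw [dif_pos h3, card_union_of_disjoint hdisj]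
    have c3 : (omez_R3 lam I T τ l).card = if cond3 lam I T τ l then 1 else 0 := by
      unfold omez_R3
      split_ifs
      · simp
      · simp
    have c1 := card_le_card hsub
    rw [hcard, c3]
    constructor
    · split_ifs <;> omega
    · have hnm : ¬ l ∣ m := fun h => by
        have := Nat.le_of_dvd (by omega) h
        omega
      have c2 : (if l ≤ yT I T z then 1 + (jacobiSym (1 - 4 * (lam : ℤ)) l : ℝ)
          else if cond2 lam l then 1 else 0) ≤ ((omez_R1 lam m (yT I T z) l h3).card : ℝ) := by
        unfold omez_R1
        split_ifs with g1 g2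
        · have : ((omez_R lam l h3).card : ℝ) = 1 + (jacobiSym (1 - 4 * (lam : ℤ)) l : ℝ) := by
            have h4 : (((omez_R lam l h3).card : ℤ) : ℝ) =
              ((1 + jacobiSym (1 - 4 * (lam : ℤ)) l : ℤ) : ℝ) := by rw [r1]
            push_cast at h4
            exact h4
          rw [this]
        · obtain ⟨r, hr1, hr2⟩ := r3 g2 m hnm
          have h5 : r ∈ (omez_R lam l h3).filter (omez_bad m l) := mem_filter.2 ⟨hr1, hr2⟩
          have h6 : 1 ≤ ((omez_R lam l h3).filter (omez_bad m l)).card := card_pos.2 ⟨r, h5⟩
          exact_mod_cast h6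
        · simp
      unfold gw
      push_cast
      refine add_le_add ?_ ?_
      · exact c2
      · split_ifs <;> norm_num
  · intro k hA hk hTF hyT l hl hmem
    obtain ⟨v, n, hkn, hn1, hv, hodd, hτv, cl1, cl2⟩ := hA
    obtain ⟨s, hs, hks⟩ := hk
    rw [mem_sdiff] at hl
    obtain ⟨h1, h2, h3⟩ := omez_PP hl.1
    have hfact : Fact l.Prime := ⟨h3⟩
    have hns : n = m ^ 2 * s := by omega
    have hnm : ¬ l ∣ m := fun h => by
      have := Nat.le_of_dvd (by omega) h
      omega
    have hllam : ¬ l ∣ lam := fun h => by
      have := Nat.le_of_dvd (by omega) h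
      omega
    have hl2 : l ≠ 2 := by omega
    unfold omez_O at hmem
    rw [dif_pos h3, mem_union] at hmem
    rcases hmem with hmem | hmem
    · unfold omez_R1 at hmem
      split_ifs at hmem with g1 g2
      · have hF : FD lam l k := omez_FD ((omez_mem h3 _).1 hmem)
        refine hl.2 (hyT l ?_ hF)
        unfold PP
        rw [mem_filter, mem_Ioc]
        exact ⟨⟨h1, g1⟩, h3⟩
      · rw [mem_filter] at hmem
        have hroot := (omez_mem h3 _).1 hmem.1
        have hF : FD lam l k := omez_FD hroot
        have hlv : l ∣ v := omez_v h3 hlam (by omega) hv hF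
        have hkl : ¬ l ∣ k := by
          intro h
          have e : (k : ZMod l) = 0 := (ZMod.natCast_eq_zero_iff k l).2 h
          rw [e] at hroot
          have e2 : (lam : ZMod l) = 0 := by
            rw [← hroot]
            ring
          exact hllam ((ZMod.natCast_eq_zero_iff lam l).1 e2)
        have hsq := hQRB l m s k h3 g2.1 hs (fun p hp hps hpl => by
          refine cl1 l p h3 hp h1 h2 hlv hpl ?_
          rw [hns, omez_fac hm hs hp hps]
          exact ⟨m.factorization p, rfl⟩) hkl (by
          rw [← hns]
          have e : (k : ZMod l) = (n : ZMod l) + lam := by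
            rw [hkn]
            push_cast
            rfl
          have e2 : (k : ZMod l) ^ 2 = k - lam := by
            linear_combination hroot
          rw [e2, e]
          ring)
        rw [← jacobiSym.legendreSym.to_jacobiSym] at hsq
        have hne : (((k * m : ℕ) : ℤ) : ZMod l) ≠ 0 := by
          intro h
          have h7 : ((k * m : ℕ) : ZMod l) = 0 := by
            rw [← h]
            push_cast
            rfl
          rcases h3.dvd_mul.1 ((ZMod.natCast_eq_zero_iff (k * m) l).1 h7) with h8 | h8
          · exact hkl h8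
          · exact hnm h8
        have hS := (legendreSym.eq_one_iff l hne).1 hsq
        refine hmem.2 ?_
        push_cast at hS
        exact hS
      · exact absurd hmem (notMem_empty _)
    · unfold omez_R3 at hmem
      split_ifs at hmem with g3
      · rw [mem_singleton] at hmem
        have e : (n : ZMod l) = 0 := by
          have e1 : (k : ZMod l) = (n : ZMod l) + lam := by
            rw [hkn]
            push_cast
            rfl
          rw [hmem] at e1
          linear_combination -e1
        have hln : l ∣ n := (ZMod.natCast_eq_zero_iff n l).1 e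
        have hls : l ∣ s := by
          rw [hns] at hln
          rcases h3.dvd_mul.1 hln with h | h
          · exact absurd (h3.dvd_of_dvd_pow h) hnm
          · exact h
        have hf : n.factorization l = 1 := by
          rw [hns, omez_fac hm hs h3 hls, Nat.factorization_eq_zero_of_not_dvd hnm]
        rcases g3 with g3 | ⟨g3, q, hq, g4⟩
        · have := cl2 l h3 hl2 hllam hf
          rw [this] at g3
          norm_num at g3
        · obtain ⟨q1, q2, q3⟩ := omez_PP (hT hq)
          have hqv : q ∣ v := omez_v q3 hlam (by omega) hv (hTF q hq)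
          have hlq : l ≠ q := fun h => hl.2 (h ▸ hq)
          have := hQRA q l q3 (by omega) h3 hlq
            (cl1 q l q3 h3 q1 q2 hqv hlq (by rw [hf]; exact odd_one))
          rw [this] at g4
          norm_num at g4
      · exact absurd hmem (notMem_empty _)

end Pool.Agent.Helper17.SV
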