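import Pool.Agent.Helper17.SO.Stmts

set_option autoImplicit false

/-! MP_c38931_co, project SV (sparsity of the orders of symmetric designs with a solvable
automorphism group all of whose point orbits have the same length): statements of the modules.
Blueprint with the proofs: `/team-store/sv_blueprint.md`. -/

open Finset

namespace Pool.Agent.Helper17.SV

open Pool.Agent.Helper17.SO

/-! ## Basic notions -/

/-- number of fixed points of a permutation -/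
noncomputable def nfix {X : Type} (g : Equiv.Perm X) : ℕ := Nat.card {x : X // g x = x}

/-- `g` maps blocks to blocks -/
def Aut {v : ℕ} (B : Fin v → Finset (Fin v)) (g : Equiv.Perm (Fin v)) : Prop :=
  ∀ i, ∃ j, B j = (B i).image g

/-- the point `x` has exactly `orb G x` images under `G` -/
noncomputable def orb {X : Type} (G : Subgroup (Equiv.Perm X)) (x : X) : ℕ :=
  Nat.card {y : X // ∃ g ∈ G, g x = y}

/-- the conditions for the primes `q` with `w < q ≤ z` -/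
def ArithZ (lam w z : ℕ) (τ : ℤ) (k : ℕ) : Prop :=
  ∃ v n : ℕ, k = n + lam ∧ 1 ≤ n ∧ lam * v + k = k * k + lam ∧ Odd v ∧ τ = (-1) ^ ((v - 1) / 2) ∧
    (∀ q p : ℕ, q.Prime → p.Prime → w < q → q ≤ z → q ∣ v → p ≠ q → Odd (n.factorization p) →
      ∀ f : ℕ, (p : ZMod q) ^ f ≠ -1) ∧
    (∀ p : ℕ, p.Prime → p ≠ 2 → ¬ p ∣ lam → n.factorization p = 1 → jacobiSym (τ * lam) p = 1)

/-- the conditions for the primes `q` with odd exponent in `v` -/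
def ArithO (lam W : ℕ) (τ : ℤ) (k : ℕ) : Prop :=
  ∃ v n : ℕ, k = n + lam ∧ 1 ≤ n ∧ lam * v + k = k * k + lam ∧ Odd v ∧ τ = (-1) ^ ((v - 1) / 2) ∧
    (∀ q p : ℕ, q.Prime → p.Prime → W < q → Odd (v.factorization q) → p ≠ q →
      Odd (n.factorization p) → ∀ f : ℕ, (p : ZMod q) ^ f ≠ -1) ∧
    (∀ p : ℕ, p.Prime → p ≠ 2 → ¬ p ∣ lam → n.factorization p = 1 → jacobiSym (τ * lam) p = 1)

/-- the class of designs: either a solvable automorphism group all of whose orbits have the same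
length, with at most `W` orbits; or enough automorphisms of prime power order -/
def Cls (W v : ℕ) (B : Fin v → Finset (Fin v)) : Prop :=
  (∃ (G : Subgroup (Equiv.Perm (Fin v))) (u : ℕ), Group.IsSolvable G ∧ (∀ g ∈ G, Aut B g) ∧
    v ≤ W * u ∧ ∀ a, orb G a = u) ∨
  ∀ q : ℕ, q.Prime → W < q → Odd (v.factorization q) → ∃ (g : Equiv.Perm (Fin v)) (r : ℕ),
    g ^ q ^ r = 1 ∧ Even (nfix g) ∧ Aut B g

/-! ## Block G: groups -/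

/-- PB: Burnside's lemma modulo `2 (l - 1)` for an `l`-group. -/
def ST_PB : Prop := ∀ (P : Type) [Group P] [Finite P] (X : Type) [Finite X] [MulAction P X]
  (l : ℕ), l.Prime → l ≠ 2 → IsPGroup l P →
  (∀ g : P, Odd (Nat.card {x : X // g • x = x})) →
  Nat.card X ≡ Nat.card (MulAction.orbitRel.Quotient P X) [MOD 2 * (l - 1)]

/-- PL: the parity of the sum of the exponents. -/
def ST_PL : Prop := ∀ (X : Type) [Fintype X] (P : Subgroup (Equiv.Perm X)) (l : ℕ),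
  l.Prime → l ≠ 2 → (∀ g ∈ P, ∃ r, g ^ l ^ r = 1) → (∀ g ∈ P, Odd (nfix g)) →
  Even (∑ x : X, padicValNat l (orb P x))

/-- FQ: an `l`-element normalizing an abelian `q`-group fixes an odd number of points of an orbit. -/
def ST_FQ : Prop := ∀ (X : Type) [Finite X] (N : Subgroup (Equiv.Perm X)) (g : Equiv.Perm X)
  (q l c : ℕ), q.Prime → l.Prime → q ≠ l → (∀ a ∈ N, ∃ r, a ^ q ^ r = 1) →
  (∀ a ∈ N, ∀ b ∈ N, a * b = b * a) → (∀ a ∈ N, g * a * g⁻¹ ∈ N) → g ^ l ^ c = 1 →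
  ∀ x : X, (∃ a ∈ N, a x = g x) → Odd (orb N x) →
  Odd (Nat.card {y : X // (∃ a ∈ N, a x = y) ∧ g y = y})

/-- LIFT: lifting of `l`-elements. -/
def ST_LIFT : Prop := ∀ (G H : Type) [Group G] [Finite G] [Group H] (φ : G →* H) (l : ℕ),
  l.Prime → ∀ (h : H) (c : ℕ), h ^ l ^ c = 1 → h ∈ φ.range → ∃ (g : G) (r : ℕ),
  g ^ l ^ r = 1 ∧ φ g = h

/-- NQ: an abelian normal `q`-subgroup of a solvable group. -/
def ST_NQ : Prop := ∀ (G : Type) [Group G] [Finite G] [Group.IsSolvable G] [Nontrivial G],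
  ∃ (q : ℕ) (M : Subgroup G), q.Prime ∧ M.Normal ∧ IsPGroup q M ∧ M ≠ ⊥ ∧
    ∀ x ∈ M, ∀ y ∈ M, x * y = y * x

/-- QM: the action on the orbits of a normal subgroup. -/
def ST_QM : Prop := ∀ (X : Type) [Fintype X] (G N : Subgroup (Equiv.Perm X)), N ≤ G → N ≠ ⊥ →
  (∀ g ∈ G, ∀ a ∈ N, g * a * g⁻¹ ∈ N) → ∃ (Y : Type) (_ : Fintype Y) (π : X → Y)
    (φ : G →* Equiv.Perm Y), Function.Surjective π ∧ Fintype.card Y < Fintype.card X ∧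
    (∀ x y, π x = π y ↔ ∃ a ∈ N, a x = y) ∧ (∀ (g : G) (x : X), φ g (π x) = π (g.1 x)) ∧
    (∀ x, orb G x = orb φ.range (π x) * orb N x)

/-- CO: the average over a coset. -/
def ST_CO : Prop := ∀ (X : Type) [Fintype X] (N : Subgroup (Equiv.Perm X)) (g : Equiv.Perm X)
  (l : ℕ), l.Prime → l ≠ 2 → (∀ a ∈ N, g * a * g⁻¹ ∈ N) → (∀ a ∈ N, ∃ r, a ^ l ^ r = 1) →
  (∃ c, g ^ l ^ c = 1) → ∀ (Y : Type) [Fintype Y] (π : X → Y) (h : Equiv.Perm Y),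
  Function.Surjective π → (∀ x y, π x = π y ↔ ∃ a ∈ N, a x = y) → (∀ x, h (π x) = π (g x)) →
  (∀ a ∈ N, (∃ r, (g * a) ^ l ^ r = 1) → Odd (nfix (g * a))) → Odd (nfix h)

/-- EV: the sum of the exponents over all points is even. -/
def ST_EV : Prop := ∀ (l : ℕ), l.Prime → l ≠ 2 → ∀ (X : Type) [Fintype X]
  (G : Subgroup (Equiv.Perm X)), Group.IsSolvable G → (∀ x, Odd (orb G x)) →
  (∀ g ∈ G, (∃ r, g ^ l ^ r = 1) → Odd (nfix g)) → Even (∑ x : X, padicValNat l (orb G x))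

/-- EVW: the consequence for orbits of the same length. -/
def ST_EVW : Prop := ∀ (v u W q : ℕ) (G : Subgroup (Equiv.Perm (Fin v))), Odd v →
  Group.IsSolvable G → (∀ a, orb G a = u) → v ≤ W * u → q.Prime → W < q →
  Odd (v.factorization q) → ∃ g ∈ G, (∃ r, g ^ q ^ r = 1) ∧ Even (nfix g)

/-! ## Block A: the norm equation -/

/-- ORB: representatives of the orbits of length greater than one of an element of prime power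
order. -/
def ST_ORB : Prop := ∀ (v q r : ℕ) (g : Equiv.Perm (Fin v)), q.Prime → g ^ q ^ r = 1 →
  ∃ (m : ℕ) (x : Fin m → Fin v) (e : Fin m → ℕ), (∀ i, 1 ≤ e i ∧ e i ≤ r) ∧
    (∀ i, (g ^ q ^ e i) (x i) = x i) ∧
    (∀ a, g a ≠ a ↔ ∃ i, ∃ t < q ^ e i, (g ^ t) (x i) = a) ∧
    (∀ i j t s, t < q ^ e i → s < q ^ e j → (g ^ t) (x i) = (g ^ s) (x j) → i = j ∧ t = s) ∧
    v = nfix g + ∑ i, q ^ e i

/-- DUAL: `A ^ T A`. -/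
def ST_DUAL : Prop := ∀ (v k n lam : ℕ) (A : Matrix (Fin v) (Fin v) ℤ), 1 ≤ n → 1 ≤ k →
  A * A.transpose = (n : ℤ) • (1 : Matrix (Fin v) (Fin v) ℤ) +
    (lam : ℤ) • Matrix.of (fun _ _ => (1 : ℤ)) →
  (∀ a, ∑ i, A a i = k) → (∀ i, ∑ a, A a i = k) →
  A.transpose * A = (n : ℤ) • (1 : Matrix (Fin v) (Fin v) ℤ) +
    (lam : ℤ) • Matrix.of (fun _ _ => (1 : ℤ))

/-- GRAM: the matrix of the nontrivial characters. -/
def ST_GRAM : Prop := ∀ (v n lam q r : ℕ) (A : Matrix (Fin v) (Fin v) ℤ)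
  (g π : Equiv.Perm (Fin v)) (ζ : ℂ), q.Prime → IsPrimitiveRoot ζ q →
  (∀ a i, A (g a) (π i) = A a i) → g ^ q ^ r = 1 → π ^ q ^ r = 1 →
  A * A.transpose = (n : ℤ) • (1 : Matrix (Fin v) (Fin v) ℤ) +
    (lam : ℤ) • Matrix.of (fun _ _ => (1 : ℤ)) →
  ∀ (m m' : ℕ) (x : Fin m → Fin v) (e : Fin m → ℕ) (b : Fin m' → Fin v) (e' : Fin m' → ℕ),
  (∀ i, 1 ≤ e i ∧ e i ≤ r) → (∀ i, (g ^ q ^ e i) (x i) = x i) →
  (∀ a, g a ≠ a ↔ ∃ i, ∃ t < q ^ e i, (g ^ t) (x i) = a) →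
  (∀ i j t s, t < q ^ e i → s < q ^ e j → (g ^ t) (x i) = (g ^ s) (x j) → i = j ∧ t = s) →
  (∀ i, 1 ≤ e' i ∧ e' i ≤ r) → (∀ i, (π ^ q ^ e' i) (b i) = b i) →
  (∀ a, π a ≠ a ↔ ∃ i, ∃ t < q ^ e' i, (π ^ t) (b i) = a) →
  (∀ i j t s, t < q ^ e' i → s < q ^ e' j → (π ^ t) (b i) = (π ^ s) (b j) → i = j ∧ t = s) →
  ∀ i i' : Fin m,
    ∑ j, (q : ℂ) ^ e' j * (∑ t ∈ range (q ^ r), (A (x i) ((π ^ t) (b j)) : ℂ) * ζ ^ t) *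
      (starRingEnd ℂ) (∑ t ∈ range (q ^ r), (A (x i') ((π ^ t) (b j)) : ℂ) * ζ ^ t) =
    if i = i' then (n : ℂ) * (q : ℂ) ^ (2 * r - e i) else 0

/-- NRM: the norm equation. -/
def ST_NRM : Prop := ∀ (v n lam q r : ℕ) (A : Matrix (Fin v) (Fin v) ℤ)
  (g π : Equiv.Perm (Fin v)) (ζ : ℂ), q.Prime → q ≠ 2 → 1 ≤ n → IsPrimitiveRoot ζ q →
  (∀ a i, A (g a) (π i) = A a i) → g ^ q ^ r = 1 → π ^ q ^ r = 1 →
  A * A.transpose = (n : ℤ) • (1 : Matrix (Fin v) (Fin v) ℤ) +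
    (lam : ℤ) • Matrix.of (fun _ _ => (1 : ℤ)) →
  A.transpose * A = (n : ℤ) • (1 : Matrix (Fin v) (Fin v) ℤ) +
    (lam : ℤ) • Matrix.of (fun _ _ => (1 : ℤ)) →
  ∃ m b : ℕ, Even (v + nfix g + m) ∧ ∃ y ∈ Algebra.adjoin ℤ ({ζ} : Set ℂ),
    y * (starRingEnd ℂ) y = (n : ℂ) ^ m * (q : ℂ) ^ b

/-- BP: the permutation of the blocks induced by an automorphism. -/
def ST_BP : Prop := ∀ (v k lam : ℕ) (B : Fin v → Finset (Fin v)), 1 ≤ lam → 1 ≤ k → k < v →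
  SymD v k lam B → ∀ g : Equiv.Perm (Fin v), Aut B g →
  ∃ π : Equiv.Perm (Fin v), (∀ a i, g a ∈ B (π i) ↔ a ∈ B i) ∧ ∀ N : ℕ, g ^ N = 1 → π ^ N = 1

/-- C1: primes dividing `n` to an odd power are not self-conjugate. -/
def ST_C1 : Prop := ∀ (v k lam n : ℕ) (B : Fin v → Finset (Fin v)), 1 ≤ lam → 1 ≤ k → k < v →
  SymD v k lam B → Odd v → k = n + lam → ∀ (q r : ℕ) (g : Equiv.Perm (Fin v)), q.Prime → q ≠ 2 →
  g ^ q ^ r = 1 → Even (nfix g) → Aut B g → ∀ p : ℕ, p.Prime → p ≠ q → Odd (n.factorization p) →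
  ∀ f : ℕ, (p : ZMod q) ^ f ≠ -1

/-- DES: a design of the class gives the arithmetic conditions. -/
def ST_DESO : Prop := ∀ (lam W v k : ℕ) (B : Fin v → Finset (Fin v)), 1 ≤ lam → 1 ≤ k → k < v →
  2 ≤ W → SymD v k lam B → Cls W v B →
  (∃ r : ℕ, k = r * r + lam) ∨ ∃ τ : ℤ, (τ = 1 ∨ τ = -1) ∧ ArithO lam W τ k

/-! ## Block N: the count -/

/-- SQV: few `k` with `l ^ 2 ∣ v`, `w < l ≤ z`. -/
def ST_SQV : Prop := ∀ (lam w z x : ℕ), 4 * lam ≤ w → 1 ≤ w → ∀ S : Finset ℕ, (∀ k ∈ S, k ≤ x ∧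
  ∃ l : ℕ, l.Prime ∧ w < l ∧ l ≤ z ∧ ((l : ℤ) ^ 2 ∣ (k : ℤ) ^ 2 - k + lam)) →
  (S.card : ℝ) ≤ 2 * x / w + 2 * z

/-- OMEZ: the forbidden classes. -/
def ST_OMEZ : Prop := ∀ (lam w z m I : ℕ) (T : Finset ℕ) (τ : ℤ), 1 ≤ lam →
  8 * lam + 7 ≤ w → 1 ≤ m → m ≤ w → T ⊆ PP w z → T.card ≤ I → (τ = 1 ∨ τ = -1) →
  ∃ Ω : (l : ℕ) → Finset (ZMod l),
    (∀ l ∈ PP w z \ T, (Ω l).card ≤ 3 ∧ gw lam I T τ z l ≤ (Ω l).card) ∧
    ∀ k : ℕ, ArithZ lam w z τ k → (∃ s, Squarefree s ∧ k = m ^ 2 * s + lam) →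
      (∀ q ∈ T, FD lam q k) → (∀ l ∈ PP w (yT I T z), FD lam l k → l ∈ T) →
      ∀ l ∈ PP w z \ T, (k : ZMod l) ∉ Ω l

/-- PERTZ: the bound for given `m` and `T`. -/
def ST_PERTZ : Prop := ∀ (lam : ℕ) (η : ℝ), 1 ≤ lam → 0 < η → ∃ (I A : ℕ) (C : ℝ),
  1 ≤ I ∧ 1 ≤ A ∧ 0 < C ∧
  ∀ (x w z m : ℕ) (T : Finset ℕ), 8 * lam + 7 ≤ w → w ≤ z → z ^ A ≤ x → 1 ≤ m →
  m ≤ w → T ⊆ PP w z → T.card ≤ I →
  ∀ S : Finset ℕ, (∀ k ∈ S, k ≤ x ∧ (∃ τ : ℤ, (τ = 1 ∨ τ = -1) ∧ ArithZ lam w z τ k) ∧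
    (∃ s, Squarefree s ∧ k = m ^ 2 * s + lam) ∧ (∀ q ∈ T, FD lam q k) ∧
    (∀ l ∈ PP w (yT I T z), FD lam l k → l ∈ T)) →
  (S.card : ℝ) ≤ C * (∏ q ∈ T, (2 / (q : ℝ))) * ((x : ℝ) / (m : ℝ) ^ 2) *
    (Real.log w / Real.log z) ^ (1 + kap lam - η)

/-- CNTZZ: the count in terms of `w` and `z`, for `ArithZ`. -/
def ST_CNTZZ : Prop := ∀ (lam : ℕ) (η : ℝ), 1 ≤ lam → 0 < η → ∃ (A : ℕ) (C : ℝ), 1 ≤ A ∧ 0 < C ∧
  ∀ (x w z : ℕ), 8 * lam + 7 ≤ w → w ≤ z → z ^ A ≤ x →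
  ∀ S : Finset ℕ, (∀ k ∈ S, k ≤ x ∧ ∃ τ : ℤ, (τ = 1 ∨ τ = -1) ∧ ArithZ lam w z τ k) →
  (S.card : ℝ) ≤ C * x * (Real.log w / Real.log z) ^ (1 + kap lam - η) + x / w

/-- CNTZO: the count in terms of `w` and `z`, for `ArithO`. -/
def ST_CNTZO : Prop := ∀ (lam : ℕ) (η : ℝ), 1 ≤ lam → 0 < η → ∃ (A : ℕ) (C : ℝ), 1 ≤ A ∧ 0 < C ∧
  ∀ (x W w z : ℕ), W ≤ w → 8 * lam + 7 ≤ w → w ≤ z → z ^ A ≤ x →
  ∀ S : Finset ℕ, (∀ k ∈ S, k ≤ x ∧ ∃ τ : ℤ, (τ = 1 ∨ τ = -1) ∧ ArithO lam W τ k) →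
  (S.card : ℝ) ≤ C * x * (Real.log w / Real.log z) ^ (1 + kap lam - η) + 5 * (x / w)

/-- CNTO: the count. -/
def ST_CNTO : Prop := ∀ (lam : ℕ) (ε : ℝ), 1 ≤ lam → 0 < ε → ∃ C : ℝ, 0 < C ∧
  ∀ (x W : ℕ), 2 ≤ W → W ≤ x →
  ∀ S : Finset ℕ, (∀ k ∈ S, k ≤ x ∧ ∃ τ : ℤ, (τ = 1 ∨ τ = -1) ∧ ArithO lam W τ k) →
  (S.card : ℝ) ≤ C * x * (Real.log W / Real.log x) ^ (1 + kap lam - ε)

/-- MAINO: the theorem. -/
def ST_MAINO : Prop := ∀ (lam : ℕ) (ε : ℝ), 1 ≤ lam → 0 < ε → ∃ C : ℝ, ∀ (x W : ℕ), 2 ≤ W →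
  W ≤ x → ∀ S : Finset ℕ, (∀ k ∈ S, 1 ≤ k ∧ k ≤ x ∧ ∃ (v : ℕ) (B : Fin v → Finset (Fin v)),
    k < v ∧ SymD v k lam B ∧ Cls W v B) →
  (S.card : ℝ) ≤ C * x * (Real.log W / Real.log x) ^ (1 + kap lam - ε)

end Pool.Agent.Helper17.SV
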