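import Pool.Agent.Helper17.SO.Final
import Pool.Agent.Helper17.SV.OMEZ
import Pool.Agent.Helper17.SV.PERTZ
import Pool.Agent.Helper17.SV.CNTZZ
import Pool.Agent.Helper17.SV.CNTZO
import Pool.Agent.Helper17.SV.CNTO
import Pool.Agent.Helper17.SV.MAINO
import Pool.Agent.Helper17.SV.DESO
import Pool.Agent.Helper2.SV.NRM
import Pool.Agent.Helper13.SV.CO
import Pool.Agent.Helper13.SV.ORB
import Pool.Agent.Helper13.SV.PB
import Pool.Agent.Helper28.SV.BP
import Pool.Agent.Helper28.SV.DUAL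
import Pool.Agent.Helper40.SV.QM
import Pool.Agent.Helper42.SV.FQ
import Pool.Agent.Helper42.SV.LIFT
import Pool.Agent.Helper45.SV.EVW
import Pool.Agent.Helper45.SV.GRAM
import Pool.Agent.Helper51.SV.NQ
import Pool.Agent.Helper76.SV.EV
import Pool.Agent.Helper78.SV.C1
import Pool.Agent.Helper82.SV.SQV
import Pool.Agent.Helper97.SV.PL

set_option autoImplicit false

open Finset

namespace Pool.Agent.Helper17.SV

open Pool.Agent.Helper17.SO

theorem fin_EVW : ST_EVW :=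
  st_EVW (st_EV (st_PL st_PB) st_FQ st_LIFT st_NQ st_QM st_CO)

theorem fin_C1 : ST_C1 := st_C1 st_INC st_SELFC (st_BP st_INC) st_DUAL (st_NRM st_ORB st_GRAM)

theorem fin_DESO : ST_DESO := st_DESO st_INC st_SCH st_BRC fin_EVW fin_C1

theorem fin_CNTO : ST_CNTO :=
  st_CNTO (st_CNTZO (st_CNTZZ
    (st_PERTZ fin_SAP (st_OMEZ st_ROOT st_QRA st_QRB) fin_LOW st_RES) st_TSET (st_SUMT st_MER))
    st_SQV)

theorem fin_MAINO : ST_MAINO := st_MAINO fin_DESO fin_CNTO

/-- the final form -/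
theorem fin_main (lam : ℕ) (hlam : 1 ≤ lam) (e ε : ℝ)
    (he : e = 1 ∨ (e = 9 / 8 ∧ ¬ IsSquare lam)) (hε : 0 < ε) :
    ∃ C : ℝ, ∀ x W : ℕ, 2 ≤ W → W ≤ x → ∀ S : Finset ℕ,
      (∀ k ∈ S, 1 ≤ k ∧ k ≤ x ∧ ∃ (v : ℕ) (B : Fin v → Finset (Fin v)), k < v ∧
        (∀ i, (B i).card = k) ∧
        (∀ a b : Fin v, a ≠ b →
          (Finset.univ.filter (fun i => a ∈ B i ∧ b ∈ B i)).card = lam) ∧
        ((∃ (G : Subgroup (Equiv.Perm (Fin v))) (u : ℕ), Group.IsSolvable G ∧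
            (∀ g ∈ G, ∀ i, ∃ j, B j = (B i).image g) ∧
            v ≤ W * u ∧ ∀ a, Nat.card {b : Fin v // ∃ g ∈ G, g a = b} = u) ∨
          ∀ q : ℕ, q.Prime → W < q → Odd (v.factorization q) →
            ∃ (g : Equiv.Perm (Fin v)) (r : ℕ), g ^ q ^ r = 1 ∧
              Even (Nat.card {a : Fin v // g a = a}) ∧ ∀ i, ∃ j, B j = (B i).image g)) →
      (S.card : ℝ) ≤ C * x * (Real.log W / Real.log x) ^ (e - ε) := by
  obtain ⟨C, hC⟩ := fin_MAINO lam ε hlam hε
  refine ⟨max C 0, fun x W hW hx S hS => ?_⟩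
  have h1 := hC x W hW hx S (fun k hk => by
    obtain ⟨h1, h2, v, B, h3, h4, h5, h6⟩ := hS k hk
    exact ⟨h1, h2, v, B, h3, ⟨h4, h5⟩, h6⟩)
  have hW2 : (2 : ℝ) ≤ W := by exact_mod_cast hW
  have hWx : (W : ℝ) ≤ x := by exact_mod_cast hx
  have hlW : 0 < Real.log W := Real.log_pos (by linarith)
  have hlx : 0 < Real.log x := Real.log_pos (by linarith)
  have hb0 : 0 < Real.log W / Real.log x := div_pos hlW hlx
  have hb1 : Real.log W / Real.log x ≤ 1 :=
    (div_le_one hlx).mpr (Real.log_le_log (by linarith) hWx)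
  have hek : e - ε ≤ 1 + kap lam - ε := by
    rcases he with h | ⟨h, h'⟩
    · rw [h]
      linarith [(main_kap_le lam).2]
    · have : kap lam = 1 / 8 := by
        unfold kap
        rw [if_neg h']
      rw [h, this]
      linarith
  have h2 : (Real.log W / Real.log x) ^ (1 + kap lam - ε) ≤
      (Real.log W / Real.log x) ^ (e - ε) :=
    Real.rpow_le_rpow_of_exponent_ge hb0 hb1 hek
  have h3 : (0 : ℝ) ≤ (Real.log W / Real.log x) ^ (1 + kap lam - ε) := Real.rpow_nonneg hb0.le _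
  have hx0 : (0 : ℝ) ≤ x := by linarith
  calc (S.card : ℝ) ≤ C * x * (Real.log W / Real.log x) ^ (1 + kap lam - ε) := h1
    _ ≤ max C 0 * x * (Real.log W / Real.log x) ^ (1 + kap lam - ε) := by
        gcongr
        exact le_max_left _ _
    _ ≤ max C 0 * x * (Real.log W / Real.log x) ^ (e - ε) := by
        have : (0 : ℝ) ≤ max C 0 := le_max_right _ _
        gcongr

end Pool.Agent.Helper17.SV
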